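import Mathlib

set_option autoImplicit false

open MeasureTheory Set Filter Topology ProbabilityTheory

namespace Pool.Agent.Lib_helper99.ISD

/-- The generalised inverse `F^{-1}(p) = inf {x : F(x) ≥ p}` of the distribution function
`F(x) = μ(-∞, x]` of a law `μ`. -/
noncomputable def quantile (μ : Measure ℝ) (p : ℝ) : ℝ := sInf {x : ℝ | p ≤ μ.real (Iic x)}

/-- `F^{[-n]}`: the quantile function to which the operation `f ↦ (p ↦ ∫_0^p f(u) du)` is applied
`n - 1` times (so `F^{[-1]}` is the quantile function, and `F^{[-(n+1)]}(p) = ∫_0^p F^{[-n]}(u) du`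
for `n ≥ 1`). -/
noncomputable def invCum (μ : Measure ℝ) (n : ℕ) : ℝ → ℝ :=
  (fun (f : ℝ → ℝ) (p : ℝ) => ∫ u in (0 : ℝ)..p, f u)^[n - 1] (quantile μ)

lemma invCum_one (μ : Measure ℝ) : invCum μ 1 = quantile μ := rfl

lemma invCum_succ_succ (μ : Measure ℝ) (n : ℕ) :
    invCum μ (n + 2) = fun p => ∫ u in (0 : ℝ)..p, invCum μ (n + 1) u := by
  unfold invCum
  simp only [Nat.add_succ_sub_one]
  rw [Function.iterate_succ_apply']
  rfl

/-- `μ ≤_n^- ν`: `n`-th degree inverse stochastic dominance between two laws. -/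
def InvDomLE (n : ℕ) (μ ν : Measure ℝ) : Prop :=
  ∀ p ∈ Ioo (0 : ℝ) 1, invCum μ n p ≤ invCum ν n p

/-- `μ <_n^- ν`: strict `n`-th degree inverse stochastic dominance. -/
def InvDomLT (n : ℕ) (μ ν : Measure ℝ) : Prop :=
  InvDomLE n μ ν ∧ ∃ p ∈ Ioo (0 : ℝ) 1, invCum μ n p < invCum ν n p

/-- `μ_{1:k} = E[min(X_1, …, X_k)]` for i.i.d. `X_i` with law `μ`. -/
noncomputable def meanMin (μ : Measure ℝ) (k : ℕ) : ℝ :=
  ∫ x : Fin k → ℝ, (⨅ i, x i) ∂(Measure.pi fun _ : Fin k => μ)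

section basics

variable (μ : Measure ℝ) [IsProbabilityMeasure μ]

lemma real_Iic_mono {x y : ℝ} (h : x ≤ y) : μ.real (Iic x) ≤ μ.real (Iic y) :=
  measureReal_mono (Iic_subset_Iic.2 h)

lemma set_nonempty {p : ℝ} (hp : p < 1) : {x : ℝ | p ≤ μ.real (Iic x)}.Nonempty := by
  have h := tendsto_cdf_atTop μ
  have h2 := (h.eventually (eventually_gt_nhds hp)).exists
  obtain ⟨x, hx⟩ := h2
  rw [cdf_eq_real] at hx
  exact ⟨x, hx.le⟩

lemma set_bddBelow {p : ℝ} (hp : 0 < p) : BddBelow {x : ℝ | p ≤ μ.real (Iic x)} := by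
  have h := tendsto_cdf_atBot μ
  have h2 := (h.eventually (eventually_lt_nhds hp)).exists
  obtain ⟨x, hx⟩ := h2
  rw [cdf_eq_real] at hx
  refine ⟨x, fun y hy => ?_⟩
  by_contra hlt
  push Not at hlt
  have := real_Iic_mono μ hlt.le
  simp only [mem_ofPred_eq] at hy
  linarith

lemma quantile_le_iff {p x : ℝ} (hp : p ∈ Ioo (0 : ℝ) 1) :
    quantile μ p ≤ x ↔ p ≤ μ.real (Iic x) := by
  constructor
  · intro h
    have hright : Tendsto (fun y => μ.real (Iic y)) (𝓝[>] x) (𝓝 (μ.real (Iic x))) := by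
      have h1 : ContinuousWithinAt (cdf μ) (Ici x) x := (cdf μ).right_continuous x
      have h2 := (h1.mono Ioi_subset_Ici_self).tendsto
      have h3 : (fun y => μ.real (Iic y)) = (fun y => cdf μ y) := by
        funext y; rw [cdf_eq_real]
      rw [h3, ← cdf_eq_real]
      exact h2
    refine ge_of_tendsto hright ?_
    filter_upwards [self_mem_nhdsWithin] with y hy
    have hlt : quantile μ p < y := lt_of_le_of_lt h hy
    obtain ⟨s, hs, hsy⟩ := exists_lt_of_csInf_lt (set_nonempty μ hp.2) hlt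
    exact le_trans hs (real_Iic_mono μ hsy.le)
  · intro h
    exact csInf_le (set_bddBelow μ hp.1) h

lemma lt_quantile_iff {p x : ℝ} (hp : p ∈ Ioo (0 : ℝ) 1) :
    x < quantile μ p ↔ μ.real (Iic x) < p := by
  rw [← not_le, quantile_le_iff μ hp, not_le]

lemma quantile_monotoneOn : MonotoneOn (quantile μ) (Ioo (0 : ℝ) 1) := by
  intro a ha b hb hab
  rw [quantile_le_iff μ ha]
  exact le_trans hab ((quantile_le_iff μ hb).1 le_rfl)

lemma quantile_aemeasurable : AEMeasurable (quantile μ) (volume.restrict (Ioo (0 : ℝ) 1)) :=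
  aemeasurable_restrict_of_monotoneOn measurableSet_Ioo (quantile_monotoneOn μ)

lemma map_quantile : (volume.restrict (Ioo (0 : ℝ) 1)).map (quantile μ) = μ := by
  have : IsProbabilityMeasure (volume.restrict (Ioo (0 : ℝ) 1)) := ⟨by simp⟩
  have : IsProbabilityMeasure ((volume.restrict (Ioo (0 : ℝ) 1)).map (quantile μ)) :=
    Measure.isProbabilityMeasure_map (quantile_aemeasurable μ)
  refine Measure.ext_of_Iic _ _ fun x => ?_
  rw [Measure.map_apply_of_aemeasurable (quantile_aemeasurable μ) measurableSet_Iic,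
    Measure.restrict_apply' measurableSet_Ioo]
  have h0 : 0 ≤ μ.real (Iic x) := measureReal_nonneg
  have h1 : μ.real (Iic x) ≤ 1 := measureReal_le_one
  have hset : quantile μ ⁻¹' Iic x ∩ Ioo (0 : ℝ) 1 = Ioc 0 (μ.real (Iic x)) ∩ Ioo (0 : ℝ) 1 := by
    ext u
    simp only [mem_inter_iff, mem_preimage, mem_Iic]
    constructor
    · rintro ⟨h, hu⟩
      exact ⟨⟨hu.1, (quantile_le_iff μ hu).1 h⟩, hu⟩
    · rintro ⟨h, hu⟩
      exact ⟨(quantile_le_iff μ hu).2 h.2, hu⟩
  rw [hset]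
  have hae : (Ioc 0 (μ.real (Iic x)) ∩ Ioo (0 : ℝ) 1 : Set ℝ) =ᵐ[volume]
      (Ioc 0 (μ.real (Iic x)) : Set ℝ) := by
    have h2 : (Ioo (0 : ℝ) 1 : Set ℝ) =ᵐ[volume] (Ioc (0 : ℝ) 1 : Set ℝ) := Ioo_ae_eq_Ioc
    have h3 := (ae_eq_refl (μ := volume) (Ioc 0 (μ.real (Iic x)) : Set ℝ)).inter h2
    refine h3.trans (Filter.EventuallyEq.of_eq ?_)
    exact inter_eq_left.2 (Ioc_subset_Ioc_right h1)
  rw [measure_congr hae, Real.volume_Ioc, sub_zero]
  exact ofReal_measureReal (measure_ne_top _ _)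

lemma integrable_quantile (hμ : Integrable (fun x : ℝ => x) μ) :
    Integrable (quantile μ) (volume.restrict (Ioo (0 : ℝ) 1)) := by
  have h : Integrable (fun x : ℝ => x) ((volume.restrict (Ioo (0 : ℝ) 1)).map (quantile μ)) := by
    rw [map_quantile]; exact hμ
  exact h.comp_aemeasurable (quantile_aemeasurable μ)

end basics

end Pool.Agent.Lib_helper99.ISD
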