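import Pool.Agent.Lib_helper99.ISD

set_option autoImplicit false

open MeasureTheory Set Filter Topology ProbabilityTheory

namespace Pool.Agent.Lib_helper99.ISD

/-- indicator difference integrals -/
lemma integrable_indDiff (a b : ℝ) :
    Integrable (fun x : ℝ => (if x < a then (1 : ℝ) else 0) - (if x < b then (1 : ℝ) else 0)) := by
  have h : (fun x : ℝ => (if x < a then (1 : ℝ) else 0) - (if x < b then (1 : ℝ) else 0))
      = fun x => (Ico b a).indicator (fun _ => (1 : ℝ)) x - (Ico a b).indicator (fun _ => (1 : ℝ)) x := by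
    funext x
    simp only [indicator, mem_Ico]
    by_cases h1 : x < a <;> by_cases h2 : x < b
    · simp [h1, h2, not_le.2 h1, not_le.2 h2]
    · simp [h1, h2, not_lt.1 h2, not_le.2 h1]
    · simp [h1, h2, not_lt.1 h1, not_le.2 h2]
    · simp [h1, h2]
  rw [h]
  refine Integrable.sub ?_ ?_ <;>
  · refine (integrable_indicator_iff measurableSet_Ico).2 ?_
    simp

lemma integral_indDiff (a b : ℝ) :
    ∫ x : ℝ, ((if x < a then (1 : ℝ) else 0) - (if x < b then (1 : ℝ) else 0)) = a - b := by
  have h : (fun x : ℝ => (if x < a then (1 : ℝ) else 0) - (if x < b then (1 : ℝ) else 0))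
      = fun x => (Ico b a).indicator (fun _ => (1 : ℝ)) x - (Ico a b).indicator (fun _ => (1 : ℝ)) x := by
    funext x
    simp only [indicator, mem_Ico]
    by_cases h1 : x < a <;> by_cases h2 : x < b
    · simp [h1, h2, not_le.2 h1, not_le.2 h2]
    · simp [h1, h2, not_lt.1 h2, not_le.2 h1]
    · simp [h1, h2, not_lt.1 h1, not_le.2 h2]
    · simp [h1, h2]
  rw [h, integral_sub, integral_indicator measurableSet_Ico, integral_indicator measurableSet_Ico]
  · simp only [integral_const, MeasurableSet.univ, measureReal_restrict_apply, univ_inter,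
      smul_eq_mul, mul_one]
    rcases le_total a b with hab | hab
    · simp [measureReal_def, hab]
    · simp [measureReal_def, hab]
  all_goals
    refine (integrable_indicator_iff measurableSet_Ico).2 ?_
    simp

lemma integral_abs_indDiff (a b : ℝ) :
    ∫ x : ℝ, |(if x < a then (1 : ℝ) else 0) - (if x < b then (1 : ℝ) else 0)| = |a - b| := by
  rcases le_total a b with hab | hab
  · have h : (fun x : ℝ => |(if x < a then (1 : ℝ) else 0) - (if x < b then (1 : ℝ) else 0)|)
      = fun x => ((if x < b then (1 : ℝ) else 0) - (if x < a then (1 : ℝ) else 0)) := by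
      funext x
      by_cases h1 : x < a
      · have h2 : x < b := lt_of_lt_of_le h1 hab
        simp [h1, h2]
      · by_cases h2 : x < b <;> simp [h1, h2]
    rw [h, integral_indDiff, abs_of_nonpos (by linarith)]
    ring
  · have h : (fun x : ℝ => |(if x < a then (1 : ℝ) else 0) - (if x < b then (1 : ℝ) else 0)|)
      = fun x => ((if x < a then (1 : ℝ) else 0) - (if x < b then (1 : ℝ) else 0)) := by
      funext x
      by_cases h1 : x < b
      · have h2 : x < a := lt_of_lt_of_le h1 hab
        simp [h1, h2]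
      · by_cases h2 : x < a <;> simp [h1, h2]
    rw [h, integral_indDiff, abs_of_nonneg (by linarith)]

section pair

variable (W V : Measure ℝ) [IsProbabilityMeasure W] [IsProbabilityMeasure V]

lemma measurable_real_Iic (μ : Measure ℝ) [IsProbabilityMeasure μ] :
    Measurable (fun x => μ.real (Iic x)) :=
  Monotone.measurable (fun _ _ h => real_Iic_mono μ h)

/-- the basic kernel -/
noncomputable def ker (u x : ℝ) : ℝ :=
  (if W.real (Iic x) < u then (1 : ℝ) else 0) - (if V.real (Iic x) < u then (1 : ℝ) else 0)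

lemma ker_eq {u : ℝ} (hu : u ∈ Ioo (0 : ℝ) 1) :
    ker W V u = fun x => (if x < quantile W u then (1 : ℝ) else 0) -
      (if x < quantile V u then (1 : ℝ) else 0) := by
  funext x
  unfold ker
  simp only [← lt_quantile_iff W hu, ← lt_quantile_iff V hu]

lemma measurable_ker : Measurable (Function.uncurry (ker W V)) := by
  unfold ker Function.uncurry
  have hW := measurable_real_Iic W
  have hV := measurable_real_Iic V
  refine Measurable.sub ?_ ?_
  · refine Measurable.ite ?_ measurable_const measurable_const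
    exact measurableSet_lt (hW.comp measurable_snd) measurable_fst
  · refine Measurable.ite ?_ measurable_const measurable_const
    exact measurableSet_lt (hV.comp measurable_snd) measurable_fst

lemma integrable_ker (hW : Integrable (fun x : ℝ => x) W) (hV : Integrable (fun x : ℝ => x) V) :
    Integrable (Function.uncurry (ker W V)) ((volume.restrict (Ioo (0 : ℝ) 1)).prod volume) := by
  rw [integrable_prod_iff (measurable_ker W V).aestronglyMeasurable]
  constructor
  · filter_upwards [ae_restrict_mem measurableSet_Ioo] with u hu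
    simp only [Function.uncurry]
    rw [show (fun y => ker W V u y) = ker W V u from rfl, ker_eq W V hu]
    exact integrable_indDiff _ _
  · have h1 : Integrable (fun u => |quantile W u - quantile V u|)
        (volume.restrict (Ioo (0 : ℝ) 1)) :=
      ((integrable_quantile W hW).sub (integrable_quantile V hV)).abs
    refine h1.congr ?_
    filter_upwards [ae_restrict_mem measurableSet_Ioo] with u hu
    simp only [Function.uncurry, Real.norm_eq_abs]
    have h2 := ker_eq W V hu
    have h3 : (fun y => |ker W V u y|) = fun x => |(if x < quantile W u then (1 : ℝ) else 0) -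
      (if x < quantile V u then (1 : ℝ) else 0)| := by
      funext x; rw [h2]
    rw [h3, integral_abs_indDiff]

lemma integrable_ker' {p : ℝ} (hp : p ≤ 1) (hW : Integrable (fun x : ℝ => x) W)
    (hV : Integrable (fun x : ℝ => x) V) :
    Integrable (Function.uncurry (ker W V)) ((volume.restrict (Ioo (0 : ℝ) p)).prod volume) := by
  refine (integrable_ker W V hW hV).mono_measure ?_
  exact Measure.prod_mono (Measure.restrict_mono (Ioo_subset_Ioo_right hp) le_rfl) le_rfl

lemma integral_ind_lt {a p : ℝ} (ha : 0 ≤ a) :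
    ∫ u in Ioo (0 : ℝ) p, (if a < u then (1 : ℝ) else 0) = max (p - a) 0 := by
  have h : (fun u : ℝ => if a < u then (1 : ℝ) else 0) = (Ioi a).indicator (fun _ => (1 : ℝ)) := by
    funext u; simp [indicator]
  rw [h, integral_indicator measurableSet_Ioi, Measure.restrict_restrict measurableSet_Ioi]
  have h2 : Ioi a ∩ Ioo 0 p = Ioo a p := by
    ext u; simp only [mem_inter_iff, mem_Ioi, mem_Ioo]
    constructor
    · rintro ⟨h1, h2, h3⟩; exact ⟨h1, h3⟩
    · rintro ⟨h1, h2⟩; exact ⟨h1, lt_of_le_of_lt ha h1, h2⟩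
  rw [h2]
  simp [measureReal_def, ENNReal.toReal_ofReal']

lemma integrable_ite_lt {a p : ℝ} :
    Integrable (fun u : ℝ => if a < u then (1 : ℝ) else 0) (volume.restrict (Ioo (0 : ℝ) p)) := by
  have h : (fun u : ℝ => if a < u then (1 : ℝ) else 0) = (Ioi a).indicator (fun _ => (1 : ℝ)) := by
    funext u; simp [indicator]
  rw [h]
  exact (integrable_const (1 : ℝ)).indicator measurableSet_Ioi

omit [IsProbabilityMeasure W] [IsProbabilityMeasure V] in
lemma inner_ker {p : ℝ} (x : ℝ) :
    ∫ u in Ioo (0 : ℝ) p, ker W V u x =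
      max (p - W.real (Iic x)) 0 - max (p - V.real (Iic x)) 0 := by
  unfold ker
  rw [integral_sub integrable_ite_lt integrable_ite_lt, integral_ind_lt measureReal_nonneg,
    integral_ind_lt measureReal_nonneg]

/-- formula for `m = 1` -/
lemma integral_quantile_sub {p : ℝ} (hp0 : 0 ≤ p) (hp : p ≤ 1)
    (hW : Integrable (fun x : ℝ => x) W) (hV : Integrable (fun x : ℝ => x) V) :
    (∫ u in (0 : ℝ)..p, quantile W u) - (∫ u in (0 : ℝ)..p, quantile V u) =
      ∫ x, (max (p - W.real (Iic x)) 0 - max (p - V.real (Iic x)) 0) := by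
  have hiW : Integrable (quantile W) (volume.restrict (Ioo (0 : ℝ) p)) :=
    (integrable_quantile W hW).mono_measure
      (Measure.restrict_mono (Ioo_subset_Ioo_right hp) le_rfl)
  have hiV : Integrable (quantile V) (volume.restrict (Ioo (0 : ℝ) p)) :=
    (integrable_quantile V hV).mono_measure
      (Measure.restrict_mono (Ioo_subset_Ioo_right hp) le_rfl)
  rw [intervalIntegral.integral_of_le hp0, intervalIntegral.integral_of_le hp0,
    integral_Ioc_eq_integral_Ioo, integral_Ioc_eq_integral_Ioo, ← integral_sub hiW hiV]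
  have h1 : ∫ u in Ioo (0 : ℝ) p, (quantile W u - quantile V u) =
      ∫ u in Ioo (0 : ℝ) p, ∫ x, ker W V u x := by
    refine setIntegral_congr_fun measurableSet_Ioo fun u hu => ?_
    have hu' : u ∈ Ioo (0 : ℝ) 1 := Ioo_subset_Ioo_right hp hu
    rw [ker_eq W V hu', integral_indDiff]
  rw [h1, integral_integral_swap (integrable_ker' W V hp hW hV)]
  refine integral_congr_ae (ae_of_all _ fun x => ?_)
  exact inner_ker W V x

lemma integrable_max_sub {p : ℝ} (hp : p ≤ 1)
    (hW : Integrable (fun x : ℝ => x) W) (hV : Integrable (fun x : ℝ => x) V) :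
    Integrable (fun x => max (p - W.real (Iic x)) 0 - max (p - V.real (Iic x)) 0) := by
  have h := (integrable_ker' W V hp hW hV).integral_prod_right
  refine h.congr (ae_of_all _ fun x => ?_)
  exact inner_ker W V x

lemma integrable_cdf_sub (hW : Integrable (fun x : ℝ => x) W)
    (hV : Integrable (fun x : ℝ => x) V) :
    Integrable (fun x => W.real (Iic x) - V.real (Iic x)) := by
  have h := integrable_max_sub W V le_rfl hW hV
  refine h.neg.congr (ae_of_all _ fun x => ?_)
  have h1 : W.real (Iic x) ≤ 1 := measureReal_le_one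
  have h2 : V.real (Iic x) ≤ 1 := measureReal_le_one
  simp only [Pi.neg_apply]
  rw [max_eq_left (by linarith), max_eq_left (by linarith)]
  ring

/-- the `m`-th truncated power difference -/
noncomputable def powDiff (m : ℕ) (p x : ℝ) : ℝ :=
  (max (p - W.real (Iic x)) 0) ^ m / (m.factorial : ℝ) -
    (max (p - V.real (Iic x)) 0) ^ m / (m.factorial : ℝ)

omit [IsProbabilityMeasure W] [IsProbabilityMeasure V] in
lemma abs_powDiff_le (m : ℕ) {p : ℝ} (hp : p ≤ 1) (x : ℝ) :
    |powDiff W V m p x| ≤ m * |W.real (Iic x) - V.real (Iic x)| := by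
  unfold powDiff
  have hA : 0 ≤ W.real (Iic x) := measureReal_nonneg
  have hB : 0 ≤ V.real (Iic x) := measureReal_nonneg
  set a := max (p - W.real (Iic x)) 0 with ha
  set b := max (p - V.real (Iic x)) 0 with hb
  have ha0 : 0 ≤ a := le_max_right _ _
  have hb0 : 0 ≤ b := le_max_right _ _
  have ha1 : a ≤ 1 := max_le (by linarith) (by norm_num)
  have hb1 : b ≤ 1 := max_le (by linarith) (by norm_num)
  have hab : |a - b| ≤ |W.real (Iic x) - V.real (Iic x)| := by
    refine le_trans (abs_max_sub_max_le_abs _ _ _) ?_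
    rw [show p - W.real (Iic x) - (p - V.real (Iic x)) = -(W.real (Iic x) - V.real (Iic x)) by ring,
      abs_neg]
  have hpow : |a ^ m - b ^ m| ≤ m * |a - b| := by
    refine le_trans (abs_pow_sub_pow_le a b m) ?_
    have hmax : max |a| |b| ^ (m - 1) ≤ 1 := by
      refine pow_le_one₀ (le_max_of_le_left (abs_nonneg _)) ?_
      exact max_le (by rw [abs_of_nonneg ha0]; exact ha1) (by rw [abs_of_nonneg hb0]; exact hb1)
    have h0 : 0 ≤ |a - b| * (m : ℝ) := by positivity
    calc |a - b| * ↑m * max |a| |b| ^ (m - 1) ≤ |a - b| * ↑m * 1 := by gcongr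
      _ = m * |a - b| := by ring
  have hfac : (1 : ℝ) ≤ (m.factorial : ℝ) := by
    exact_mod_cast Nat.one_le_iff_ne_zero.2 (Nat.factorial_ne_zero m)
  rw [← sub_div, abs_div, abs_of_pos (by linarith : (0 : ℝ) < (m.factorial : ℝ))]
  calc |a ^ m - b ^ m| / (m.factorial : ℝ) ≤ |a ^ m - b ^ m| / 1 := by gcongr
    _ = |a ^ m - b ^ m| := by ring
    _ ≤ m * |a - b| := hpow
    _ ≤ _ := by gcongr

lemma measurable_powDiff (m : ℕ) :
    Measurable (Function.uncurry (fun p x => powDiff W V m p x)) := by
  unfold powDiff Function.uncurry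
  have hW : Measurable (fun z : ℝ × ℝ => W.real (Iic z.2)) :=
    (measurable_real_Iic W).comp measurable_snd
  have hV : Measurable (fun z : ℝ × ℝ => V.real (Iic z.2)) :=
    (measurable_real_Iic V).comp measurable_snd
  refine Measurable.sub ?_ ?_
  · refine Measurable.div_const (Measurable.pow_const ?_ m) _
    exact (measurable_fst.sub hW).max measurable_const
  · refine Measurable.div_const (Measurable.pow_const ?_ m) _
    exact (measurable_fst.sub hV).max measurable_const

lemma integrable_powDiff_prod (m : ℕ) {p : ℝ} (hp : p ≤ 1)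
    (hW : Integrable (fun x : ℝ => x) W) (hV : Integrable (fun x : ℝ => x) V) :
    Integrable (Function.uncurry (fun s x => powDiff W V m s x))
      ((volume.restrict (Ioo (0 : ℝ) p)).prod volume) := by
  have h1 : Integrable (fun z : ℝ × ℝ => (m : ℝ) * |W.real (Iic z.2) - V.real (Iic z.2)|)
      ((volume.restrict (Ioo (0 : ℝ) p)).prod volume) := by
    refine Integrable.const_mul ?_ _
    have h2 := (integrable_cdf_sub W V hW hV).abs
    exact h2.comp_snd (volume.restrict (Ioo (0 : ℝ) p))
  refine h1.mono' (measurable_powDiff W V m).aestronglyMeasurable ?_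
  have h3 : ∀ᵐ z : ℝ × ℝ ∂((volume.restrict (Ioo (0 : ℝ) p)).prod volume), z.1 ∈ Ioo (0 : ℝ) p := by
    have := Measure.quasiMeasurePreserving_fst (μ := volume.restrict (Ioo (0 : ℝ) p))
      (ν := (volume : Measure ℝ))
    exact this.ae (ae_restrict_mem measurableSet_Ioo)
  filter_upwards [h3] with z hz
  rw [Real.norm_eq_abs]
  exact abs_powDiff_le W V m (hz.2.le.trans hp) z.2

lemma integrable_powDiff (m : ℕ) {p : ℝ} (hp : p ≤ 1)
    (hW : Integrable (fun x : ℝ => x) W) (hV : Integrable (fun x : ℝ => x) V) :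
    Integrable (fun x => powDiff W V m p x) := by
  refine ((integrable_cdf_sub W V hW hV).abs.const_mul (m : ℝ)).mono' ?_ ?_
  · exact ((measurable_powDiff W V m).comp (measurable_const.prodMk measurable_id)).aestronglyMeasurable
  · refine ae_of_all _ fun x => ?_
    rw [Real.norm_eq_abs]
    exact abs_powDiff_le W V m hp x

lemma integral_max_pow {a p : ℝ} (ha : 0 ≤ a) (hp : 0 ≤ p) (m : ℕ) (hm : 1 ≤ m) :
    ∫ s in Ioo (0 : ℝ) p, (max (s - a) 0) ^ m = (max (p - a) 0) ^ (m + 1) / (m + 1) := by
  rw [← integral_Ioc_eq_integral_Ioo, ← intervalIntegral.integral_of_le hp]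
  have hcont : Continuous (fun s : ℝ => (max (s - a) 0) ^ m) := by fun_prop
  rcases le_total p a with hpa | hpa
  · rw [max_eq_right (by linarith : p - a ≤ 0)]
    have : ∫ s in (0 : ℝ)..p, (max (s - a) 0) ^ m = ∫ s in (0 : ℝ)..p, (0 : ℝ) := by
      refine intervalIntegral.integral_congr fun s hs => ?_
      rw [uIcc_of_le hp] at hs
      rw [max_eq_right (by linarith [hs.2] : s - a ≤ 0), zero_pow (by omega)]
    rw [this]
    simp
  · rw [max_eq_left (by linarith : 0 ≤ p - a)]
    rw [← intervalIntegral.integral_add_adjacent_intervals (b := a)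
      (hcont.intervalIntegrable _ _) (hcont.intervalIntegrable _ _)]
    have h1 : ∫ s in (0 : ℝ)..a, (max (s - a) 0) ^ m = ∫ s in (0 : ℝ)..a, (0 : ℝ) := by
      refine intervalIntegral.integral_congr fun s hs => ?_
      rw [uIcc_of_le ha] at hs
      rw [max_eq_right (by linarith [hs.2] : s - a ≤ 0), zero_pow (by omega)]
    have h2 : ∫ s in a..p, (max (s - a) 0) ^ m = ∫ s in a..p, (s - a) ^ m := by
      refine intervalIntegral.integral_congr fun s hs => ?_
      rw [uIcc_of_le hpa] at hs
      rw [max_eq_left (by linarith [hs.1] : 0 ≤ s - a)]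
    rw [h1, h2]
    rw [intervalIntegral.integral_comp_sub_right (fun s => s ^ m) a]
    simp [integral_pow]

omit [IsProbabilityMeasure W] [IsProbabilityMeasure V] in
lemma inner_powDiff (m : ℕ) (hm : 1 ≤ m) {p : ℝ} (hp : 0 ≤ p) (x : ℝ) :
    ∫ s in Ioo (0 : ℝ) p, powDiff W V m s x = powDiff W V (m + 1) p x := by
  unfold powDiff
  have hi : ∀ a : ℝ, Integrable (fun s : ℝ => (max (s - a) 0) ^ m / (m.factorial : ℝ))
      (volume.restrict (Ioo (0 : ℝ) p)) := by
    intro a
    have hc : Continuous (fun s : ℝ => (max (s - a) 0) ^ m / (m.factorial : ℝ)) := by fun_prop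
    exact (hc.integrableOn_Icc (a := 0) (b := p)).mono_set Ioo_subset_Icc_self
  rw [integral_sub (hi _) (hi _), integral_div, integral_div,
    integral_max_pow measureReal_nonneg hp m hm, integral_max_pow measureReal_nonneg hp m hm]
  rw [Nat.factorial_succ]
  have : (m.factorial : ℝ) ≠ 0 := by exact_mod_cast Nat.factorial_ne_zero m
  push_cast
  field_simp

lemma integral_integral_powDiff (m : ℕ) (hm : 1 ≤ m) {p : ℝ} (hp0 : 0 ≤ p) (hp : p ≤ 1)
    (hW : Integrable (fun x : ℝ => x) W) (hV : Integrable (fun x : ℝ => x) V) :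
    ∫ s in (0 : ℝ)..p, ∫ x, powDiff W V m s x = ∫ x, powDiff W V (m + 1) p x := by
  rw [intervalIntegral.integral_of_le hp0, integral_Ioc_eq_integral_Ioo,
    integral_integral_swap (integrable_powDiff_prod W V m hp hW hV)]
  refine integral_congr_ae (ae_of_all _ fun x => ?_)
  exact inner_powDiff W V m hm hp0 x

lemma intervalIntegrable_invCum (μ : Measure ℝ) [IsProbabilityMeasure μ]
    (hμ : Integrable (fun x : ℝ => x) μ) (n : ℕ) :
    IntervalIntegrable (invCum μ (n + 1)) volume 0 1 := by
  induction n with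
  | zero =>
    rw [intervalIntegrable_iff_integrableOn_Ioo_of_le zero_le_one]
    exact integrable_quantile μ hμ
  | succ n ih =>
    rw [invCum_succ_succ μ n]
    have hc : ContinuousOn (fun p => ∫ u in (0 : ℝ)..p, invCum μ (n + 1) u) (uIcc 0 1) :=
      intervalIntegral.continuousOn_primitive_interval' ih left_mem_uIcc
    exact hc.intervalIntegrable

lemma continuousOn_invCum (μ : Measure ℝ) [IsProbabilityMeasure μ]
    (hμ : Integrable (fun x : ℝ => x) μ) (n : ℕ) :
    ContinuousOn (invCum μ (n + 2)) (Icc 0 1) := by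
  rw [invCum_succ_succ μ n, ← uIcc_of_le (zero_le_one (α := ℝ))]
  exact intervalIntegral.continuousOn_primitive_interval' (intervalIntegrable_invCum μ hμ n)
    left_mem_uIcc

/-- The basic formula for the difference of the iterated quantile integrals. -/
lemma invCum_sub (m : ℕ) {p : ℝ} (hp0 : 0 ≤ p) (hp : p ≤ 1)
    (hW : Integrable (fun x : ℝ => x) W) (hV : Integrable (fun x : ℝ => x) V) :
    invCum W (m + 2) p - invCum V (m + 2) p = ∫ x, powDiff W V (m + 1) p x := by
  induction m generalizing p with
  | zero =>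
    have := integral_quantile_sub W V hp0 hp hW hV
    simp only [powDiff, zero_add, pow_one, Nat.factorial_one, Nat.cast_one, div_one]
    exact this
  | succ m ih =>
    have hsub : ∀ μ : Measure ℝ, invCum μ (m + 1 + 2) p = ∫ u in (0 : ℝ)..p, invCum μ (m + 2) u :=
      fun μ => congrFun (invCum_succ_succ μ (m + 1)) p
    rw [hsub, hsub]
    have hint : ∀ μ : Measure ℝ, IsProbabilityMeasure μ → Integrable (fun x : ℝ => x) μ →
        IntervalIntegrable (invCum μ (m + 2)) volume 0 p := by
      intro μ hμ1 hμ
      refine (intervalIntegrable_invCum μ hμ (m + 1)).mono_set ?_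
      rw [uIcc_of_le hp0, uIcc_of_le zero_le_one]
      exact Icc_subset_Icc_right hp
    rw [← intervalIntegral.integral_sub (hint W inferInstance hW) (hint V inferInstance hV)]
    rw [← integral_integral_powDiff W V (m + 1) (by omega) hp0 hp hW hV]
    refine intervalIntegral.integral_congr fun s hs => ?_
    rw [uIcc_of_le hp0] at hs
    exact ih hs.1 (hs.2.trans hp)

/-- If `μ ≤_n^- ν` then the next iterated integral at one is ordered as well. -/
lemma integral_powDiff_le_zero_of_le (m : ℕ)
    (hW : Integrable (fun x : ℝ => x) W) (hV : Integrable (fun x : ℝ => x) V)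
    (h : InvDomLE (m + 2) W V) : ∫ x, powDiff W V (m + 2) 1 x ≤ 0 := by
  rw [← integral_integral_powDiff W V (m + 1) (by omega) zero_le_one le_rfl hW hV]
  rw [intervalIntegral.integral_of_le zero_le_one, integral_Ioc_eq_integral_Ioo]
  refine setIntegral_nonpos measurableSet_Ioo fun s hs => ?_
  rw [← invCum_sub W V m hs.1.le hs.2.le hW hV]
  linarith [h s hs]

/-- If `μ ≤_n^- ν` then the inequality holds at `p = 1` too. -/
lemma integral_powDiff_one_le_zero (m : ℕ)
    (hW : Integrable (fun x : ℝ => x) W) (hV : Integrable (fun x : ℝ => x) V)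
    (h : InvDomLE (m + 2) W V) : ∫ x, powDiff W V (m + 1) 1 x ≤ 0 := by
  rw [← invCum_sub W V m zero_le_one le_rfl hW hV]
  have hc : ContinuousOn (fun p => invCum W (m + 2) p - invCum V (m + 2) p) (Icc 0 1) :=
    (continuousOn_invCum W hW m).sub (continuousOn_invCum V hV m)
  have h1 : Tendsto (fun p => invCum W (m + 2) p - invCum V (m + 2) p) (𝓝[Ioo 0 1] 1)
      (𝓝 (invCum W (m + 2) 1 - invCum V (m + 2) 1)) :=
    ((hc 1 ⟨zero_le_one, le_rfl⟩).mono Ioo_subset_Icc_self).tendsto
  have hne : (𝓝[Ioo (0 : ℝ) 1] 1).NeBot := by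
    rw [← mem_closure_iff_nhdsWithin_neBot, closure_Ioo (by norm_num)]
    exact ⟨zero_le_one, le_rfl⟩
  refine le_of_tendsto h1 ?_
  filter_upwards [self_mem_nhdsWithin] with s hs
  linarith [h s hs]

end pair

end Pool.Agent.Lib_helper99.ISD
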