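import Pool.Agent.Lib_helper99.ISD2

set_option autoImplicit false

open MeasureTheory Set Filter Topology ProbabilityTheory
open scoped ENNReal

namespace Pool.Agent.Lib_helper99.ISD

section shift

variable {g : ℝ → ℝ}

lemma tendsto_window (hg : Antitone g) {l : ℝ} {F : Filter ℝ} (h : Tendsto g F (𝓝 l)) (c : ℝ)
    (hc : 0 ≤ c) (h2 : Tendsto (fun M => g (M + c)) F (𝓝 l)) :
    Tendsto (fun M => ∫ x in M..(M + c), g x) F (𝓝 (c * l)) := by
  have hi : ∀ a b : ℝ, IntervalIntegrable g volume a b := fun a b => hg.intervalIntegrable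
  refine tendsto_of_tendsto_of_tendsto_of_le_of_le (g := fun M => c * g (M + c))
    (h := fun M => c * g M) (h2.const_mul c) (h.const_mul c) ?_ ?_
  · intro M
    simp only
    have h1 : ∫ x in M..(M + c), g (M + c) ≤ ∫ x in M..(M + c), g x := by
      refine intervalIntegral.integral_mono_on (by linarith) (by simp) (hi _ _) ?_
      intro x hx
      exact hg hx.2
    rw [intervalIntegral.integral_const] at h1
    simpa using h1
  · intro M
    simp only
    have h1 : ∫ x in M..(M + c), g x ≤ ∫ x in M..(M + c), g M := by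
      refine intervalIntegral.integral_mono_on (by linarith) (hi _ _) (by simp) ?_
      intro x hx
      exact hg hx.1
    rw [intervalIntegral.integral_const] at h1
    simpa using h1

/-- For a nonincreasing `g` going from `1` to `0`, `∫ (g x - g (x + c)) dx = c`. -/
lemma shift_aux (hg : Antitone g) (hbot : Tendsto g atBot (𝓝 1)) (htop : Tendsto g atTop (𝓝 0))
    (c : ℝ) (hc : 0 ≤ c) :
    Integrable (fun x => g x - g (x + c)) ∧ ∫ x, (g x - g (x + c)) = c := by
  have hi : ∀ a b : ℝ, IntervalIntegrable g volume a b := fun a b => hg.intervalIntegrable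
  have hg' : Antitone (fun x => g (x + c)) := fun x y hxy => hg (by linarith)
  have hi' : ∀ a b : ℝ, IntervalIntegrable (fun x => g (x + c)) volume a b :=
    fun a b => hg'.intervalIntegrable
  have key : ∀ M : ℝ, ∫ x in (-M)..M, (g x - g (x + c)) =
      (∫ x in (-M)..(-M + c), g x) - ∫ x in M..(M + c), g x := by
    intro M
    rw [intervalIntegral.integral_sub (hi _ _) (hi' _ _)]
    rw [intervalIntegral.integral_comp_add_right (fun x => g x) c]
    have h1 := intervalIntegral.integral_add_adjacent_intervals (hi (-M) (-M + c)) (hi (-M + c) (M + c))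
    have h2 := intervalIntegral.integral_add_adjacent_intervals (hi (-M) M) (hi M (M + c))
    linarith
  have hlim : Tendsto (fun M : ℝ => ∫ x in (-M)..M, (g x - g (x + c))) atTop (𝓝 c) := by
    have hA : Tendsto (fun M : ℝ => ∫ x in (-M)..(-M + c), g x) atTop (𝓝 (c * 1)) := by
      have h0 : Tendsto (fun M => ∫ x in M..(M + c), g x) atBot (𝓝 (c * 1)) := by
        refine tendsto_window hg hbot c hc ?_
        exact hbot.comp (tendsto_atBot_add_const_right _ c tendsto_id)
      exact h0.comp tendsto_neg_atTop_atBot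
    have hB : Tendsto (fun M : ℝ => ∫ x in M..(M + c), g x) atTop (𝓝 (c * 0)) := by
      refine tendsto_window hg htop c hc ?_
      exact htop.comp (tendsto_atTop_add_const_right _ c tendsto_id)
    have hAB := hA.sub hB
    rw [show c * 1 - c * 0 = c by ring] at hAB
    refine hAB.congr fun M => (key M).symm
  have hint : Integrable (fun x => g x - g (x + c)) := by
    refine integrable_of_intervalIntegral_norm_tendsto (a := fun M : ℝ => -M) (b := fun M : ℝ => M)
      (l := atTop) c ?_ tendsto_neg_atTop_atBot tendsto_id ?_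
    · intro M
      rcases le_total (-M) M with h | h
      · have := ((hi (-M) M).sub (hi' (-M) M))
        rw [intervalIntegrable_iff_integrableOn_Ioc_of_le h] at this
        exact this
      · rw [Ioc_eq_empty (by linarith)]
        exact integrableOn_empty
    · refine hlim.congr fun M => ?_
      refine intervalIntegral.integral_congr fun x _ => ?_
      rw [Real.norm_eq_abs, abs_of_nonneg]
      have := hg (show x ≤ x + c by linarith)
      linarith
  refine ⟨hint, ?_⟩
  exact tendsto_nhds_unique
    (intervalIntegral_tendsto_integral hint tendsto_neg_atTop_atBot tendsto_id) hlim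

end shift

section surv

variable (ρ : Measure ℝ) [IsProbabilityMeasure ρ]

/-- survival function -/
noncomputable def surv (x : ℝ) : ℝ := 1 - ρ.real (Iic x)

lemma surv_antitone : Antitone (surv ρ) := by
  intro x y h
  unfold surv
  have := real_Iic_mono ρ h
  linarith

lemma surv_nonneg (x : ℝ) : 0 ≤ surv ρ x := by
  unfold surv
  have : ρ.real (Iic x) ≤ 1 := measureReal_le_one
  linarith

omit [IsProbabilityMeasure ρ] in
lemma surv_le_one (x : ℝ) : surv ρ x ≤ 1 := by
  unfold surv
  have : 0 ≤ ρ.real (Iic x) := measureReal_nonneg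
  linarith

lemma surv_atBot : Tendsto (surv ρ) atBot (𝓝 1) := by
  unfold surv
  have h := tendsto_cdf_atBot ρ
  have h2 : (fun x => 1 - ρ.real (Iic x)) = fun x => 1 - cdf ρ x := by
    funext x; rw [cdf_eq_real]
  rw [h2]
  simpa using h.const_sub 1

lemma surv_atTop : Tendsto (surv ρ) atTop (𝓝 0) := by
  unfold surv
  have h := tendsto_cdf_atTop ρ
  have h2 : (fun x => 1 - ρ.real (Iic x)) = fun x => 1 - cdf ρ x := by
    funext x; rw [cdf_eq_real]
  rw [h2]
  simpa using h.const_sub 1

end surv

section conv

variable (ρ : Measure ℝ) [IsProbabilityMeasure ρ]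

lemma conv_two (a b : ℝ) (p q : ℝ≥0∞) (x : ℝ) :
    ((p • Measure.dirac a + q • Measure.dirac b) ∗ ρ) (Iic x) =
      p * ρ (Iic (x - a)) + q * ρ (Iic (x - b)) := by
  unfold Measure.conv
  rw [Measure.map_apply (by fun_prop) measurableSet_Iic]
  rw [Measure.add_prod, Measure.add_apply, Measure.prod_smul_left, Measure.prod_smul_left,
    Measure.smul_apply, Measure.smul_apply, Measure.dirac_prod, Measure.dirac_prod,
    Measure.map_apply (by fun_prop) (by measurability),
    Measure.map_apply (by fun_prop) (by measurability)]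
  have h : ∀ c : ℝ, Prod.mk c ⁻¹' ((fun z : ℝ × ℝ => z.1 + z.2) ⁻¹' Iic x) = Iic (x - c) := by
    intro c
    ext y
    simp only [mem_preimage, mem_Iic]
    constructor <;> intro h <;> linarith
  rw [h, h]
  rfl

lemma integrable_conv (μ : Measure ℝ) [IsProbabilityMeasure μ]
    (hμ : Integrable (fun x : ℝ => x) μ) (hρ : Integrable (fun x : ℝ => x) ρ) :
    Integrable (fun x : ℝ => x) (μ ∗ ρ) := by
  unfold Measure.conv
  rw [integrable_map_measure (by fun_prop) (by fun_prop)]
  exact (hμ.comp_fst ρ).add (hρ.comp_snd μ)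

end conv

section meanMin

lemma iInf_fin_eq (k : ℕ) (hk : 1 ≤ k) (a b c : ℝ) (hab : a ≤ b) (hbc : b ≤ c)
    (x : Fin k → ℝ) (hx : ∀ i, x i = a ∨ x i = b ∨ x i = c) :
    (⨅ i, x i) = a + (b - a) * (Set.pi univ (fun _ : Fin k => Ici b)).indicator 1 x
      + (c - b) * (Set.pi univ (fun _ : Fin k => Ici c)).indicator 1 x := by
  have : Nonempty (Fin k) := ⟨⟨0, by omega⟩⟩
  have hbdd : BddBelow (range x) := (finite_range x).bddBelow
  by_cases h1 : ∀ i, b ≤ x i
  · have h1' : x ∈ Set.pi univ (fun _ : Fin k => Ici b) := fun i _ => h1 i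
    rw [indicator_of_mem h1']
    by_cases h2 : ∀ i, c ≤ x i
    · have h2' : x ∈ Set.pi univ (fun _ : Fin k => Ici c) := fun i _ => h2 i
      rw [indicator_of_mem h2']
      have h3 : ∀ i, x i = c := by
        intro i
        rcases hx i with h | h | h
        · linarith [h2 i]
        · linarith [h2 i]
        · exact h
      simp [h3]
    · have h2' : x ∉ Set.pi univ (fun _ : Fin k => Ici c) := fun h => h2 fun i => h i (mem_univ i)
      rw [indicator_of_notMem h2']
      push Not at h2
      obtain ⟨i, hi⟩ := h2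
      have h3 : x i = b := by
        rcases hx i with h | h | h
        · linarith [h1 i]
        · exact h
        · linarith
      have h4 : (⨅ i, x i) = b := le_antisymm (h3 ▸ ciInf_le hbdd i) (le_ciInf h1)
      rw [h4]
      simp
  · have h1' : x ∉ Set.pi univ (fun _ : Fin k => Ici b) := fun h => h1 fun i => h i (mem_univ i)
    rw [indicator_of_notMem h1']
    push Not at h1
    obtain ⟨i, hi⟩ := h1
    have h2' : x ∉ Set.pi univ (fun _ : Fin k => Ici c) := by
      intro h
      have := h i (mem_univ i)
      simp only [mem_Ici] at this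
      linarith
    rw [indicator_of_notMem h2']
    have h3 : x i = a := by
      rcases hx i with h | h | h
      · exact h
      · linarith
      · linarith
    have h5 : ∀ j, a ≤ x j := by
      intro j
      rcases hx j with h | h | h <;> linarith
    have h4 : (⨅ i, x i) = a := le_antisymm (h3 ▸ ciInf_le hbdd i) (le_ciInf h5)
    rw [h4]
    simp

/-- mean of the minimum for a law carried by three points -/
lemma meanMin_three (μ : Measure ℝ) [IsProbabilityMeasure μ] (k : ℕ) (hk : 1 ≤ k) (a b c : ℝ)
    (hab : a ≤ b) (hbc : b ≤ c) (hμ : ∀ᵐ x ∂μ, x = a ∨ x = b ∨ x = c) :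
    meanMin μ k = a + (b - a) * (μ.real (Ici b)) ^ k + (c - b) * (μ.real (Ici c)) ^ k := by
  unfold meanMin
  have hae : ∀ᵐ x : Fin k → ℝ ∂(Measure.pi fun _ : Fin k => μ), ∀ i, x i = a ∨ x i = b ∨ x i = c := by
    rw [ae_all_iff]
    intro i
    exact (Measure.quasiMeasurePreserving_eval (μ := fun _ : Fin k => μ) i).ae hμ
  have hmeas : ∀ t : ℝ, MeasurableSet (Set.pi univ (fun _ : Fin k => Ici t)) :=
    fun t => MeasurableSet.univ_pi fun _ => measurableSet_Ici
  have h1 : ∫ x : Fin k → ℝ, (⨅ i, x i) ∂(Measure.pi fun _ : Fin k => μ) =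
      ∫ x : Fin k → ℝ, (a + (b - a) * (Set.pi univ (fun _ : Fin k => Ici b)).indicator 1 x
      + (c - b) * (Set.pi univ (fun _ : Fin k => Ici c)).indicator 1 x)
        ∂(Measure.pi fun _ : Fin k => μ) := by
    refine integral_congr_ae ?_
    filter_upwards [hae] with x hx
    exact iInf_fin_eq k hk a b c hab hbc x hx
  have hind : ∀ t : ℝ, Integrable ((Set.pi univ (fun _ : Fin k => Ici t)).indicator
      (1 : (Fin k → ℝ) → ℝ)) (Measure.pi fun _ : Fin k => μ) :=
    fun t => (integrable_const (1 : ℝ)).indicator (hmeas t)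
  have hval : ∀ t : ℝ, ∫ x, (Set.pi univ (fun _ : Fin k => Ici t)).indicator
      (1 : (Fin k → ℝ) → ℝ) x ∂(Measure.pi fun _ : Fin k => μ) = (μ.real (Ici t)) ^ k := by
    intro t
    rw [integral_indicator_one (hmeas t), measureReal_def, Measure.pi_pi]
    simp [measureReal_def]
  rw [h1, integral_add, integral_add, integral_const_mul, integral_const_mul, hval, hval]
  · simp
  · exact integrable_const _
  · exact (hind b).const_mul _
  · exact (integrable_const _).add ((hind b).const_mul _)
  · exact (hind c).const_mul _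

end meanMin

end Pool.Agent.Lib_helper99.ISD
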